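import Pool.Agent.J4H11.GP.MainPB
import Pool.Agent.J4H11.GP.AlgRed

/-!
# Lang's conjecture, density version, for general covers of products of elliptic curves

`E_j : y² = x³ + a_j x + b_j` (`j = 1, …, r`) are elliptic curves over `ℚ` with infinitely many
rational points, `A = E_1 × … × E_r`, `ρ` is the rank of `A(ℚ)`, and one of the curves, `E_i`, has
rank at least three (no other condition on it).

`Z` is a variety over `ℚ` with a finite map to the product `B` of the `E_j`, `j ≠ i` (for example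
`Z = B`); it is given by its generic point `((P_j)_{j ≠ i}, ζ)`, where `P` is a point of `A(ℂ)` with
algebraically independent `x`-coordinates and the `ζ_t` are integral over `ℤ[P_j, j ≠ i]`.

`X : Φ(P, ζ, w) = 0` is a cover of `Z × E_i`. It is assumed that `X` is geometrically irreducible
over `Z` and remains so after the pull-back by every multiplication `n : E_i → E_i`, that is, that
the curve `X_ζ` over `E_i` has no étale part (condition PB in the literature on the Hilbert
property). The same is assumed for a second cover `Y : Θ = 0` which has `ν ≥ 2` different maps to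
`X` above `Z × E_i`, defined over `ℚ` or over a number field. The monodromy group of `X` is
arbitrary. Examples:

* `Y = X`, `ν = d`, for a cover `X` of degree `d` which is Galois over a number field, with any
  group; then `N = 3` for `d = 2` and `N = 2` for `d ≥ 3`;
* `Y = X` for every cover with a nontrivial automorphism, `N = d + 1`;
* `Y` the Galois closure of `X`, if this satisfies the condition; `Y` a component of `X ×_A X`
  whose maps to `X` are the two projections (for doubly transitive monodromy `Y` is the complement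
  of the diagonal), and so on.

The result is that the points of `A(ℚ)` over which `X` has a rational point have density zero in
`A(ℚ)`: in every ball of radius `T` (for the square root of the canonical height) there are at most
`C T ^ ρ (log T) ^ (- 1 / (14 N))` of them, where `deg Θ < N (ν - 1)`. If the ramification of `X` is
ample, then `X` is of general type, and its rational points should be contained in a proper closed
subset according to Lang's conjecture.

The proof is a Mordell-Weil sieve in a tower of primes. For the primes `p` of a set of full density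
the image of `E_i(ℚ)` in `E_i(𝔽_p)` has at least `p ^ (1 / 2 + κ)` elements. Weil's bound for
the curves `X_z` and `Y_z`, `z ∈ Z(𝔽_p)`, and for their translates, then shows that the
points of `X_z(𝔽_p)` and `Y_z(𝔽_p)` are equidistributed over the cosets of this image, so that a
proportion at least `1 / N` of the elements of each coset has no preimage in `X_z(𝔽_p)`. The second
moment of the number of preimages is computed by linear disjointness of the function
fields of `X_ζ` and of its translates by a generic point of `E_i`; that this follows from the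
condition PB is proved by descent, with Neumann's lemma on coverings of groups by cosets.
-/

set_option autoImplicit false

namespace Pool.Agent.Results.MP_2ae8fe_ag.GeneralCoversRankThree

open MvPolynomial Module

/-- the elliptic curve `y² = x³ + a x + b` over the field `F` -/
def E (F : Type) [Field F] (a b : ℤ) : WeierstrassCurve F := ⟨0, 0, 0, a, b⟩

/-- the group of the points of `y² = x³ + a x + b` with coordinates in `F` -/
abbrev Pts (F : Type) [Field F] (a b : ℤ) : Type := (E F a b).toAffine.Point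

/-- the affine coordinates `x`, `y` of a point; both are `0` for the point at infinity -/
def coord {F : Type} [Field F] {a b : ℤ} : Pts F a b → Fin 2 → F
  | .zero => ![0, 0]
  | .some x y _ => ![x, y]

/-- the height `log (max (|p|, q))` of a rational point with `x`-coordinate `p / q` in lowest terms;
`0` for the point at infinity -/
noncomputable def height {a b : ℤ} : Pts ℚ a b → ℝ
  | .zero => 0
  | .some x _ _ => Real.log (max (x.num.natAbs : ℝ) (x.den : ℝ))

/-- the field `ℂ(x, y)` of the rational functions on `y² = x³ + a x + b` -/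
abbrev FF (a b : ℤ) : Type := (E ℂ a b).toAffine.FunctionField

/-- the function `x` -/
noncomputable def fx (a b : ℤ) : FF a b :=
  algebraMap _ _ (WeierstrassCurve.Affine.CoordinateRing.mk (E ℂ a b).toAffine
    (Polynomial.C Polynomial.X))

/-- the function `y` -/
noncomputable def fy (a b : ℤ) : FF a b :=
  algebraMap _ _ (WeierstrassCurve.Affine.CoordinateRing.mk (E ℂ a b).toAffine Polynomial.X)

open Classical in
/-- the generic point `(x, y)` of the curve, with coordinates in the field `ℂ(x, y)` -/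
noncomputable def gen (a b : ℤ) : Pts (FF a b) a b :=
  if h : (E (FF a b) a b).toAffine.Nonsingular (fx a b) (fy a b) then .some _ _ h else 0

section
variable {r s : ℕ} {a b : Fin r → ℤ}

/-- the value at a point `Q` of `A(ℚ)` and `z` of a polynomial in the coordinates `x_j` (variable
`(j, 0)`), `y_j` (variable `(j, 1)`) and `z_t` -/
noncomputable def val (Q : (j : Fin r) → Pts ℚ (a j) (b j)) (z : Fin s → ℚ) :
    MvPolynomial ((Fin r × Fin 2) ⊕ Fin s) ℤ →+* ℚ :=
  (aeval (Sum.elim (fun v => coord (Q v.1) v.2) z)).toRingHom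

/-- `(Q, z)` lies on the variety `Z`, the closure of the point `((P_j)_{j ≠ i}, ζ)` -/
def OnZ (i : Fin r) (P : Fin r × Fin 2 → ℂ) (ζ : Fin s → ℂ)
    (Q : (j : Fin r) → Pts ℚ (a j) (b j)) (z : Fin s → ℚ) : Prop :=
  ∀ G : MvPolynomial (({j : Fin r // j ≠ i} × Fin 2) ⊕ Fin s) ℤ,
    aeval (Sum.elim (fun v => P (v.1, v.2)) ζ) G = 0 →
      aeval (Sum.elim (fun v => coord (Q v.1) v.2) z) G = 0

/-- The points of `A(ℚ)` in a ball of radius `T` (for the square root of the height) which are the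
images of rational points of the cover `Φ(Q, z, w) = 0` of `Z × E_i` (or have a coordinate at
infinity). -/
def Lifting (i : Fin r) (P : Fin r × Fin 2 → ℂ) (ζ : Fin s → ℂ)
    (Φ : Polynomial (MvPolynomial ((Fin r × Fin 2) ⊕ Fin s) ℤ))
    (c : (j : Fin r) → Pts ℚ (a j) (b j)) (T : ℝ) : Set ((j : Fin r) → Pts ℚ (a j) (b j)) :=
  {Q | (∀ j, height (Q j - c j) ≤ T ^ 2) ∧ ((∀ j, Q j ≠ 0) →
    ∃ z : Fin s → ℚ, OnZ i P ζ Q z ∧ ∃ w : ℚ, Φ.eval₂ (val Q z) w = 0)}

/-- The polynomial `Φ((P_j)_{j ≠ i}, n (x, y), ζ, w)` in `w` over the field `ℂ(x, y)` of the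
functions on `E_i`, where `n (x, y)` is the `n`-th multiple of the generic point of `E_i`. -/
noncomputable def onCurve (a b : Fin r → ℤ) (i : Fin r) (P : Fin r × Fin 2 → ℂ) (ζ : Fin s → ℂ)
    (n : ℕ) (Φ : Polynomial (MvPolynomial ((Fin r × Fin 2) ⊕ Fin s) ℤ)) :
    Polynomial (FF (a i) (b i)) :=
  Φ.map (aeval (Sum.elim (fun v => if v.1 = i then coord (n • gen (a i) (b i)) v.2 else
    algebraMap ℂ (FF (a i) (b i)) (P v)) (fun t => algebraMap ℂ (FF (a i) (b i)) (ζ t)))).toRingHom

end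

section
open Pool.Agent.J4H11.RC Pool.Agent.J4H11.SC Pool.Agent.J4H11.GN Pool.Agent.J4H11.GP
  Pool.Agent.H901R3.MS

theorem coord_eq {F : Type} [Field F] {a b : ℤ} (P : Pts F a b) (e : Fin 2) :
    coord P e = ![(crd (a := (a : F)) (b := (b : F)) P).1,
      (crd (a := (a : F)) (b := (b : F)) P).2] e := by
  rcases P with _ | ⟨x, y, h⟩ <;> rfl

theorem height_eq {a b : ℤ} (P : Pts ℚ a b) :
    height P = hx (a := (a : ℚ)) (b := (b : ℚ)) P := by
  rcases P with _ | ⟨x, y, h⟩ <;> rfl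

theorem gen_eq (a b : ℤ) (hD : Disc (a : ℂ) (b : ℂ)) : gen a b = Rg hD := by
  unfold gen
  have h : (E (FF a b) a b).toAffine.Nonsingular (fx a b) (fy a b) :=
    (nonsingular_iff (disc_of (algebraMap ℂ (Fk ℂ a b)) a b hD)).2 (by
      have h := g_onE (a : ℂ) (b : ℂ)
      unfold Pool.Agent.J4H11.SC.OnE at h
      rw [map_intCast, map_intCast] at h
      exact h)
  rw [dif_pos h]
  rfl

variable {r s : ℕ} {a b : Fin r → ℤ}

theorem val_zth (Q : (j : Fin r) → Pts ℚ (a j) (b j)) (z : Fin s → ℚ) :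
    val Q z = zth (fun j => (crd (a := (a j : ℚ)) (b := (b j : ℚ)) (Q j)).1)
      (fun j => (crd (a := (a j : ℚ)) (b := (b j : ℚ)) (Q j)).2) z := by
  apply zth_ext
  · intro j
    change aeval _ (X (Sum.inl (j, 0))) = _
    rw [aeval_X]
    exact coord_eq (Q j) 0
  · intro j
    change aeval _ (X (Sum.inl (j, 1))) = _
    rw [aeval_X]
    exact coord_eq (Q j) 1
  · intro t
    change aeval _ (X (Sum.inr t)) = _
    rw [aeval_X]
    rfl

theorem onZ_iff (i : Fin r) (P : Fin r × Fin 2 → ℂ) (ζ : Fin s → ℂ)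
    (Q : (j : Fin r) → Pts ℚ (a j) (b j)) (z : Fin s → ℚ) :
    OnZ i P ζ Q z ↔ IsZ (fun j : Bi i => P (j, 0)) (fun j : Bi i => P (j, 1)) ζ
      (bx i (a' := fun j => (a j : ℚ)) (b' := fun j => (b j : ℚ)) Q)
      (byy i (a' := fun j => (a j : ℚ)) (b' := fun j => (b j : ℚ)) Q) z := by
  unfold OnZ IsZ
  have h1 : (Sum.elim (fun v : Bi i × Fin 2 => P (v.1, v.2)) ζ) =
      Sum.elim (pv (fun j : Bi i => P (j, 0)) (fun j : Bi i => P (j, 1))) ζ := by
    congr 1
    funext v
    obtain ⟨j, e⟩ := v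
    rcases fin2 e with rfl | rfl <;> rfl
  have h2 : (Sum.elim (fun v : Bi i × Fin 2 => coord (Q v.1) v.2) z) =
      Sum.elim (pv (bx i (a' := fun j => (a j : ℚ)) (b' := fun j => (b j : ℚ)) Q)
        (byy i (a' := fun j => (a j : ℚ)) (b' := fun j => (b j : ℚ)) Q)) z := by
    congr 1
    funext v
    obtain ⟨j, e⟩ := v
    rcases fin2 e with rfl | rfl
    · exact coord_eq (Q j) 0
    · exact coord_eq (Q j) 1
  rw [h1, h2]
  rfl

theorem onCurve_eq (i : Fin r) (hD : Disc (a i : ℂ) (b i : ℂ)) (P : Fin r × Fin 2 → ℂ)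
    (ζ : Fin s → ℂ) (n : ℕ) (Φ : Polynomial (MvPolynomial ((Fin r × Fin 2) ⊕ Fin s) ℤ))
    (xb yb : Bi i → ℂ) (hxb : xb = fun j : Bi i => P (j, 0))
    (hyb : yb = fun j : Bi i => P (j, 1)) :
    onCurve a b i P ζ n Φ = (Φ.map (part i xb yb ζ)).map
      (ev ((algebraMap ℂ (FFd (a i : ℂ) (b i : ℂ))).comp (zth xb yb ζ).range.subtype)
        (crd (n • Rg hD)).1 (crd (n • Rg hD)).2) := by
  rw [Polynomial.map_map, part_ev i xb yb ζ
    ((algebraMap ℂ (FFd (a i : ℂ) (b i : ℂ))).comp (zth xb yb ζ).range.subtype)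
    (fun j => algebraMap ℂ _ (xb j)) (fun j => algebraMap ℂ _ (yb j))
    (fun t => algebraMap ℂ _ (ζ t)) (fun G => by
      rw [← zth_comp]
      rfl)]
  unfold onCurve
  congr 1
  have hc : ∀ e : Fin 2, coord (n • gen (a i) (b i)) e =
      ![(crd (n • Rg hD)).1, (crd (n • Rg hD)).2] e := by
    intro e
    rw [gen_eq (a i) (b i) hD]
    exact coord_eq (a := a i) (b := b i) (n • Rg hD) e
  apply zth_ext
  · intro j
    change aeval _ (X (Sum.inl (j, 0))) = _
    rw [aeval_X]
    change (if j = i then coord (n • gen (a i) (b i)) 0 else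
      algebraMap ℂ (FF (a i) (b i)) (P (j, 0))) = _
    unfold Pool.Agent.J4H11.RC.ext
    by_cases hj : j = i
    · rw [if_pos hj, dif_pos hj]
      exact hc 0
    · rw [if_neg hj, dif_neg hj, hxb]
      rfl
  · intro j
    change aeval _ (X (Sum.inl (j, 1))) = _
    rw [aeval_X]
    change (if j = i then coord (n • gen (a i) (b i)) 1 else
      algebraMap ℂ (FF (a i) (b i)) (P (j, 1))) = _
    unfold Pool.Agent.J4H11.RC.ext
    by_cases hj : j = i
    · rw [if_pos hj, dif_pos hj]
      exact hc 1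
    · rw [if_neg hj, dif_neg hj, hyb]
      rfl
  · intro t
    change aeval _ (X (Sum.inr t)) = _
    rw [aeval_X]
    rfl

theorem expo (N : ℕ) (hN : 2 ≤ N) :
    (1 - 1 / (N : ℝ)) * (1000 : ℝ) ^ (2 * (1 / (14 * (N : ℝ)))) ≤ 1 := by
  have hd0 : (0 : ℝ) < N := by exact_mod_cast (by omega : 0 < N)
  have h1 : (1000 : ℝ) ≤ Real.exp 7 := by
    have h2 : (2.7182818283 : ℝ) < Real.exp 1 := Real.exp_one_gt_d9
    have h3 : Real.exp 7 = Real.exp 1 ^ 7 := by
      rw [← Real.exp_nat_mul]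
      norm_num
    rw [h3]
    calc (1000 : ℝ) ≤ 2.7182818283 ^ 7 := by norm_num
      _ ≤ _ := pow_le_pow_left₀ (by norm_num) h2.le 7
  have h4 : (1000 : ℝ) ^ (2 * (1 / (14 * (N : ℝ)))) ≤ Real.exp (1 / N) := by
    calc (1000 : ℝ) ^ (2 * (1 / (14 * (N : ℝ)))) ≤ (Real.exp 7) ^ (2 * (1 / (14 * (N : ℝ)))) :=
          Real.rpow_le_rpow (by norm_num) h1 (by positivity)
      _ = Real.exp (1 / N) := by
          rw [← Real.exp_mul]
          congr 1
          field_simp
          norm_num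
  have h5 : (1 - 1 / (N : ℝ)) ≤ Real.exp (-(1 / N)) := by
    have h6 := Real.add_one_le_exp (-(1 / (N : ℝ)))
    linarith
  have h7 : (0 : ℝ) ≤ 1 - 1 / (N : ℝ) := by
    rw [sub_nonneg, div_le_one (by positivity)]
    have : (2 : ℝ) ≤ N := by exact_mod_cast hN
    linarith
  calc (1 - 1 / (N : ℝ)) * (1000 : ℝ) ^ (2 * (1 / (14 * (N : ℝ)))) ≤
      Real.exp (-(1 / N)) * Real.exp (1 / N) :=
        mul_le_mul h5 h4 (by positivity) (Real.exp_pos _).le
    _ = 1 := by rw [← Real.exp_add, neg_add_cancel, Real.exp_zero]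

end

open Pool.Agent.J4H11.RC Pool.Agent.J4H11.SC Pool.Agent.J4H11.GN Pool.Agent.J4H11.GP in
theorem result (r : ℕ) (a b : Fin r → ℤ) (hE : ∀ j, 4 * a j ^ 3 + 27 * b j ^ 2 ≠ 0)
    (hinf : ∀ j, Infinite (Pts ℚ (a j) (b j)))
    -- the direction `E_i`
    (i : Fin r) (hrk : 3 ≤ finrank ℤ (Pts ℚ (a i) (b i)))
    -- a very general point `P` of `A`
    (P : Fin r × Fin 2 → ℂ) (hP : ∀ j, P (j, 1) ^ 2 = P (j, 0) ^ 3 + a j * P (j, 0) + b j)
    (hPi : AlgebraicIndependent ℚ (fun j => P (j, 0)))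
    -- the variety `Z`, with a finite map to the product of the `E_j`, `j ≠ i`
    (s : ℕ) (ζ : Fin s → ℂ)
    (hζ : ∀ t, IsIntegral (Algebra.adjoin ℤ (P '' {v | v.1 ≠ i})) (ζ t))
    -- the covers `X : Φ(P, ζ, w) = 0` and `Y : Θ(P, ζ, w) = 0` of `Z × E_i`
    (Φ Θ : Polynomial (MvPolynomial ((Fin r × Fin 2) ⊕ Fin s) ℤ)) (hΦ : Φ.Monic) (hΘ : Θ.Monic)
    (hPBΦ : ∀ n : ℕ, 1 ≤ n → Irreducible (onCurve a b i P ζ n Φ))
    (hPBΘ : ∀ n : ℕ, 1 ≤ n → Irreducible (onCurve a b i P ζ n Θ))
    -- `ν` different maps from `Y` to `X` above `A`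
    (θ : ℂ) (hθ : Θ.eval₂ (aeval (Sum.elim P ζ)).toRingHom θ = 0)
    (ν : ℕ) (hν : 2 ≤ ν) (w : Fin ν → ℂ) (hw : Function.Injective w)
    (hwΦ : ∀ t, Φ.eval₂ (aeval (Sum.elim P ζ)).toRingHom (w t) = 0)
    (hwθ : ∀ t, w t ∈ IntermediateField.adjoin ℚ
      (Set.range P ∪ Set.range ζ ∪ {θ} ∪ {α | IsAlgebraic ℚ α}))
    (N : ℕ) (hN2 : 2 ≤ N) (hN : Θ.natDegree < N * (ν - 1)) :
    ∃ C : ℝ, ∀ (c : (j : Fin r) → Pts ℚ (a j) (b j)) (T : ℝ), 2 ≤ T →
      (Lifting i P ζ Φ c T).Finite ∧
      ((Lifting i P ζ Φ c T).ncard : ℝ) ≤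
        C * T ^ (∑ j, finrank ℤ (Pts ℚ (a j) (b j))) * Real.log T ^ (-(1 / (14 * N)) : ℝ) ∧
      ((Lifting i P ζ Φ c T).ncard : ℝ) ≤
        C * Real.log T ^ (-(1 / (14 * N)) : ℝ) *
          ({Q : (j : Fin r) → Pts ℚ (a j) (b j) | ∀ j, height (Q j) ≤ T ^ 2}.ncard : ℝ) := by
  classical
  have hD : ∀ j, Pool.Agent.H901R3.MS.Disc (a j : ℚ) (b j : ℚ) := by
    intro j h0
    apply hE j
    have h1 : (4 * (a j : ℚ) ^ 3 + 27 * (b j : ℚ) ^ 2) = ((4 * a j ^ 3 + 27 * b j ^ 2 : ℤ) : ℚ) := by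
      push_cast; ring
    rw [h1] at h0
    rcases mul_eq_zero.1 h0 with h2 | h2
    · norm_num at h2
    · exact_mod_cast h2
  have hDC : Pool.Agent.H901R3.MS.Disc (a i : ℂ) (b i : ℂ) :=
    disc_of (Rat.castHom ℂ) (a i) (b i) (hD i)
  set xb : Bi i → ℂ := fun j => P (j, 0) with hxb
  set yb : Bi i → ℂ := fun j => P (j, 1) with hyb
  have hpv : Set.range (pv xb yb) = P '' {v | v.1 ≠ i} := by
    ext c
    constructor
    · rintro ⟨⟨j, e⟩, rfl⟩
      rcases fin2 e with rfl | rfl
      · exact ⟨((j : Fin r), 0), j.2, rfl⟩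
      · exact ⟨((j : Fin r), 1), j.2, rfl⟩
    · rintro ⟨⟨j, e⟩, hj, rfl⟩
      rcases fin2 e with rfl | rfl
      · exact ⟨(⟨j, hj⟩, 0), rfl⟩
      · exact ⟨(⟨j, hj⟩, 1), rfl⟩
  have hval : (aeval (Sum.elim P ζ) : MvPolynomial ((Fin r × Fin 2) ⊕ Fin s) ℤ →ₐ[ℤ] ℂ).toRingHom =
      zth (fun j => P (j, 0)) (fun j => P (j, 1)) ζ := by
    apply zth_ext
    · intro j
      change aeval _ (X (Sum.inl (j, 0))) = _
      rw [aeval_X]
      rfl
    · intro j
      change aeval _ (X (Sum.inl (j, 1))) = _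
      rw [aeval_X]
      rfl
    · intro t
      change aeval _ (X (Sum.inr t)) = _
      rw [aeval_X]
      rfl
  rw [hval] at hθ
  simp only [hval] at hwΦ
  have hPr : Set.range P = Set.range (fun j => P (j, 0)) ∪ Set.range (fun j => P (j, 1)) := by
    ext c
    constructor
    · rintro ⟨⟨j, e⟩, rfl⟩
      rcases fin2 e with rfl | rfl
      · exact Or.inl ⟨j, rfl⟩
      · exact Or.inr ⟨j, rfl⟩
    · rintro (⟨j, rfl⟩ | ⟨j, rfl⟩)
      · exact ⟨_, rfl⟩
      · exact ⟨_, rfl⟩
  obtain ⟨α, hα, hα2⟩ := alg_red (Set.range P ∪ Set.range ζ ∪ {θ}) w hwθ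
  have hN0 : (0 : ℝ) < N := by exact_mod_cast (by omega : 0 < N)
  have hN1 : (1 : ℝ) ≤ N := by exact_mod_cast (by omega : 1 ≤ N)
  obtain ⟨C, hC0, hC⟩ := main_pb i hD hinf hrk (fun j => P (j, 0)) (fun j => P (j, 1)) hPi hP
    xb yb hxb hyb ζ (by rw [hpv]; exact hζ) Φ Θ hΦ hΘ hDC
    (fun n hn => by
      rw [← onCurve_eq i hDC P ζ n Φ xb yb hxb hyb]
      exact hPBΦ n hn)
    (fun n hn => by
      rw [← onCurve_eq i hDC P ζ n Θ xb yb hxb hyb]
      exact hPBΘ n hn) θ (by
      rw [Polynomial.IsRoot.def, Polynomial.eval_map]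
      exact hθ) α hα hν w hw (fun t => by
      rw [Polynomial.IsRoot.def, Polynomial.eval_map]
      exact hwΦ t) (fun t => by
      have h1 := hα2 t
      rw [hPr] at h1
      have h2 : (Set.range (fun j => P (j, 0)) ∪ Set.range (fun j => P (j, 1)) ∪ Set.range ζ ∪
          {θ} ∪ {α} : Set ℂ) = Set.range (fun j => P (j, 0)) ∪ Set.range (fun j => P (j, 1)) ∪
            Set.range ζ ∪ {θ, α} := by
        rw [Set.union_assoc _ {θ} {α}]
        congr 1
      rw [h2] at h1
      exact h1) N hN2 hN (1 / (14 * N)) (by positivity) (by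
      rw [div_le_one (by positivity)]
      linarith) (expo N hN2)
  obtain ⟨κ, hκ0, hκ⟩ := low_all (a := a) (b := b) hD
  have hset : ∀ (c : (j : Fin r) → Pool.Agent.H901R3.MS.Pt (a j : ℚ) (b j : ℚ)) (T : ℝ),
      Lifting i P ζ Φ c T =
      {P : (j : Fin r) → Pool.Agent.H901R3.MS.Pt (a j : ℚ) (b j : ℚ) |
        (∀ j, hx (P j - c j) ≤ T ^ 2) ∧ Lf0Z i xb yb ζ Φ P} := by
    intro c T
    unfold Lifting Lf0Z
    ext Q
    simp only [Set.mem_ofPred_eq, height_eq, onZ_iff, val_zth, Polynomial.IsRoot.def,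
      Polynomial.eval_map]
    rfl
  refine ⟨C + C / κ, fun c T hT => ?_⟩
  obtain ⟨h1', h2'⟩ := hC T hT c
  obtain ⟨-, h3⟩ := hκ T (by linarith)
  have h1 : (Lifting i P ζ Φ c T).Finite := (hset c T).symm ▸ h1'
  have h2 : ((Lifting i P ζ Φ c T).ncard : ℝ) ≤
      C * T ^ (∑ j, finrank ℤ (Pts ℚ (a j) (b j))) * Real.log T ^ (-(1 / (14 * N)) : ℝ) :=
    (congrArg (fun S => (S.ncard : ℝ)) (hset c T)).le.trans h2'
  have hT0 : 0 < T := by linarith
  have hlog : 0 ≤ Real.log T ^ (-(1 / (14 * N)) : ℝ) :=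
    Real.rpow_nonneg (Real.log_nonneg (by linarith)) _
  have hpos : 0 ≤ C / κ := div_nonneg hC0 hκ0.le
  refine ⟨h1, ?_, ?_⟩
  · refine h2.trans ?_
    apply mul_le_mul_of_nonneg_right _ hlog
    apply mul_le_mul_of_nonneg_right _ (by positivity)
    linarith
  · have hball : {Q : (j : Fin r) → Pts ℚ (a j) (b j) | ∀ j, height (Q j) ≤ T ^ 2} =
        {P : (j : Fin r) → Pool.Agent.H901R3.MS.Pt (a j : ℚ) (b j : ℚ) |
          ∀ j, hx (P j) ≤ T ^ 2} := by
      simp only [height_eq]
      rfl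
    rw [hball]
    refine h2.trans ?_
    calc C * T ^ (∑ j, finrank ℤ (Pts ℚ (a j) (b j))) * Real.log T ^ (-(1 / (14 * N)) : ℝ)
        = C / κ * Real.log T ^ (-(1 / (14 * N)) : ℝ) *
            (κ * T ^ (∑ j, finrank ℤ (Pts ℚ (a j) (b j)))) := by
          field_simp
      _ ≤ C / κ * Real.log T ^ (-(1 / (14 * N)) : ℝ) * _ :=
          mul_le_mul_of_nonneg_left h3 (mul_nonneg hpos hlog)
      _ ≤ _ := by
          apply mul_le_mul_of_nonneg_right _ (Nat.cast_nonneg _)
          apply mul_le_mul_of_nonneg_right _ hlog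
          linarith

end Pool.Agent.Results.MP_2ae8fe_ag.GeneralCoversRankThree
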