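import Pool.Agent.J4H11.GQ.K9

/-!
# Lang's conjecture, density version: from density zero over each number field to a bound which is
# uniform over all the number fields of bounded degree

`E_j : y² = x³ + a_j x + b_j` (`j = 1, …, r`) are elliptic curves over `ℚ` of rank at least three,
`A = E_1 × … × E_r`, `ρ` is the rank of `A(ℚ)`. A point `P` of `A(ℂ)` is generic if its
`x`-coordinates are algebraically independent over `ℚ`.

`X` is an algebraic subset over `ℚ` of `A × 𝔸^s` (more precisely, of the product of the affine parts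
`y_j² = x_j³ + a_j x_j + b_j` and the affine space) such that the fibre of `X` over every generic
point `P` is finite. Every variety over `ℚ` with a
generically finite rational map to `A` is birational to such an `X`.

Let `d ≥ 1`. For a number field `K ⊂ ℂ` let `L_K` be the set of the points `Q` of `A(ℚ)` such that
the fibre `X_Q` has a point of degree at most `d` over `K`; for `d = 1` this is the set of the
points of `A(ℚ)` which lift to `X(K)`.

The result: the following properties of `X` and `d` are equivalent.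

1. For no number field `K` the subset `X` is *dominated* over `K`, that is, there are no generic
   point `P` and no points `R`, `S` of `A(ℂ)` with `n R + S = P`, `n ≥ 1`, `S ∈ A(ℚ)`, such that a
   point of the fibre of `X` over `P` has degree at most `d` over the field `K(R)`. (For `d = 1` the
   condition of being dominated means that there is a rational map `A → X` over `K` which is a lift
   of the map `Q ↦ n Q + S` from `A` to `A`; since this map is étale, this is
   possible only if a component of `X` over `ℂ` which maps onto `A` is birational to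
   an étale cover of `A`. In particular the condition 1 holds for `d = 1` if these components are of
   general type.)
2. For every number field `K` the set `L_K` has density zero in `A(ℚ)`.
3. For every `D` there are `γ > 0` and `C` such that for **all the number fields** `K` of degree at
   most `D` and all the balls of radius `T ≥ 2` (for the square root of the height) in `A(ℚ)` there
   are at most `C T ^ ρ (log T) ^ (- γ)` points of `L_K` in the ball. So the density of `L_K` in a
   ball is at most `C (log T) ^ (- γ)`, uniformly in `K`.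

Two consequences for a variety `X` of general type (`d = 1`).

* Let `X → A` be a Galois cover over `ℚ` with group `Γ`, and let `X_τ` be the twist of this cover
  which belongs to a homomorphism `τ` from the Galois group of `ℚ` to `Γ`. Then the
  set of the points in a ball of radius `T` in `A(ℚ)` which are images of rational points of `X_τ`
  has at most `C T ^ ρ (log T) ^ (- γ)` elements, uniformly in `τ`: the twist is trivial over
  a field `K` of degree at most `D = |Γ|`.
* Let the degree of `X → A` be at most `D`. For the points `Q` of a ball of radius `T` in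
  `A(ℚ)` the fields generated by the points of the fibres `X_Q` are not all contained in the fields
  of a set of less than `c (log T) ^ γ` number fields of degree at most `D`. (For covers of the
  projective line stronger results of this kind are due to Dvornicich and Zannier.)

The proof that 1 implies 3. For a number `m` with `(d + 1) ^ m > D d ^ m` the power `X^m` is a subset
of `A^m × 𝔸^{ms}`, generically finite over `A^m`. If `Q_1, …, Q_m` are points of `A(ℚ)` and the
fibres of `X` over all of them have points `z_1, …, z_m` of degree at most `d` over `K`, then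
`(z_1, …, z_m)` is a point of the fibre of `X^m` over `(Q_1, …, Q_m)` of degree at most `D d ^ m`
over `ℚ`; this condition does not contain `K`. The set `X^m` is not dominated over `ℚ` for
the degree `D d ^ m`: let `(P_1, …, P_m)` be generic, `n R_i + S_i = P_i`, and let `z_i` be in the
fibre over `P_i`. The coordinates of `R_j` and `z_j` for `j ≠ i` are algebraic over the field
generated by the coordinates of the `P_j`, `j ≠ i`; let `k_i` be the field which
they generate. If `z_i` had degree at most `d` over `k_i(R_i)`, then by a specialization of the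
coordinates of the `P_j`, `j ≠ i`, to integers, by a place of `ℂ` which is trivial on the algebraic
closure of `ℚ(P_i)`, the fibre over `P_i` would have a point of degree at most `d` over `K(R_i)`, for
a number field `K`. So `z_i` has degree at least `d + 1` over `k_i(R_i)`, and `(z_1, …, z_m)` has
degree at least `(d + 1) ^ m` over `ℚ(R_1, …, R_m)`. By the density theorem for the points
of bounded degree (the library of the result `RationalDensity`), for `X^m` and `A^m`, there are
at most `C' T ^ (m ρ) (log T) ^ (- γ')` such `m`-tuples in the `m`-th power of the ball, and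
the bound follows with `γ = γ' / m`.
-/

set_option autoImplicit false

namespace Pool.Agent.Results.MP_2ae8fe_ag.UniformNumberFields

open MvPolynomial Module

/-- the elliptic curve `y² = x³ + a x + b` over the field `F` -/
def E (F : Type) [Field F] (a b : ℤ) : WeierstrassCurve F := ⟨0, 0, 0, a, b⟩

/-- the group of the points of `y² = x³ + a x + b` with coordinates in `F` -/
abbrev Pts (F : Type) [Field F] (a b : ℤ) : Type := (E F a b).toAffine.Point

/-- the affine coordinates `x`, `y` of a point; both are `0` for the point at infinity -/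
def coord {F : Type} [Field F] {a b : ℤ} : Pts F a b → Fin 2 → F
  | .zero => ![0, 0]
  | .some x y _ => ![x, y]

/-- the height `log (max (|p|, q))` of a rational point with `x`-coordinate `p / q` in lowest terms;
`0` for the point at infinity -/
noncomputable def height {a b : ℤ} : Pts ℚ a b → ℝ
  | .zero => 0
  | .some x _ _ => Real.log (max (x.num.natAbs : ℝ) (x.den : ℝ))

section
variable {r s : ℕ} {a b : Fin r → ℤ}

/-- The complex points of the fibre over the point `Q` of `A(F)`, `F = ℚ` or `F = ℂ`, of the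
algebraic set `X`, which is given by a set of
polynomials in the coordinates of the affine space, with coefficients which are
polynomials in the coordinates `x_j` (variable `(j, 0)`) and `y_j` (variable `(j, 1)`). -/
def Fibre {F : Type} [Field F] [Algebra F ℂ]
    (X : Set (MvPolynomial (Fin s) (MvPolynomial (Fin r × Fin 2) ℤ)))
    (Q : (j : Fin r) → Pts F (a j) (b j)) : Set (Fin s → ℂ) :=
  {z | ∀ G ∈ X, eval₂ (aeval (fun v => algebraMap F ℂ (coord (Q v.1) v.2))).toRingHom z G = 0}

/-- The degree of `z` over the subfield `F` of `ℂ` is at most `d`: the coordinates of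
`z` are in an extension of `F` of degree at most `d`. -/
def DegreeLE (F : Subfield ℂ) (d : ℕ) (z : Fin s → ℂ) : Prop :=
  ∃ L : IntermediateField F ℂ, FiniteDimensional F L ∧ finrank F L ≤ d ∧ ∀ t, z t ∈ L

/-- the field `K(R)` generated by `K` and the coordinates of the point `R` of `A(ℂ)` -/
noncomputable def fieldOf (K : IntermediateField ℚ ℂ) (R : (j : Fin r) → Pts ℂ (a j) (b j)) : Subfield ℂ :=
  Subfield.closure ((K : Set ℂ) ∪ Set.range (fun v : Fin r × Fin 2 => coord (R v.1) v.2))

/-- the coordinates of the point `S` of `A(ℂ)` are rational numbers, that is, `S` is in `A(ℚ)` -/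
def IsRational (S : (j : Fin r) → Pts ℂ (a j) (b j)) : Prop :=
  ∀ j e, ∃ q : ℚ, coord (S j) e = q

/-- the point `P` of `A(ℂ)` is generic -/
def Generic (P : (j : Fin r) → Pts ℂ (a j) (b j)) : Prop :=
  AlgebraicIndependent ℚ (fun j => coord (P j) 0)

/-- A point of the fibre of `X` over a generic point `P` has degree at most `d` over a field
`K(R)`, where `R` is a point of `A(ℂ)` with `n R + S = P` for some `n ≥ 1` and some rational
point `S`. -/
def Dominated (a b : Fin r → ℤ) (X : Set (MvPolynomial (Fin s) (MvPolynomial (Fin r × Fin 2) ℤ)))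
    (K : IntermediateField ℚ ℂ) (d : ℕ) : Prop :=
  ∃ P : (j : Fin r) → Pts ℂ (a j) (b j), Generic P ∧ ∃ n : ℕ, 1 ≤ n ∧
    ∃ R S : (j : Fin r) → Pts ℂ (a j) (b j), IsRational S ∧ n • R + S = P ∧
      ∃ z ∈ Fibre X P, DegreeLE (fieldOf K R) d z

/-- the fibre of `X` over the point `Q` of `A(ℚ)` has a point of degree at most `d` over `K` -/
def HasPoint (X : Set (MvPolynomial (Fin s) (MvPolynomial (Fin r × Fin 2) ℤ)))
    (K : IntermediateField ℚ ℂ) (d : ℕ) (Q : (j : Fin r) → Pts ℚ (a j) (b j)) : Prop :=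
  ∃ z ∈ Fibre X Q, DegreeLE K.toSubfield d z

/-- the points of `A(ℚ)` in a ball of radius `T` (for the square root of the height) -/
def Ball (c : (j : Fin r) → Pts ℚ (a j) (b j)) (T : ℝ) : Set ((j : Fin r) → Pts ℚ (a j) (b j)) :=
  {Q | ∀ j, height (Q j - c j) ≤ T ^ 2}

/-- the points of `A(ℚ)` with a coordinate at infinity -/
def AtInfinity (Q : (j : Fin r) → Pts ℚ (a j) (b j)) : Prop := ∃ j, Q j = 0

end

section
open Pool.Agent.J4H11.RC Pool.Agent.J4H11.SC Pool.Agent.J4H11.GN Pool.Agent.J4H11.GP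
  Pool.Agent.J4H11.GQ Pool.Agent.H901R3.MS

theorem coord_eq {F : Type} [Field F] {a b : ℤ} (P : Pts F a b) (e : Fin 2) :
    coord P e = ![(crd (a := (a : F)) (b := (b : F)) P).1,
      (crd (a := (a : F)) (b := (b : F)) P).2] e := by
  rcases P with _ | ⟨x, y, h⟩ <;> rfl

theorem height_eq {a b : ℤ} (P : Pts ℚ a b) :
    height P = hx (a := (a : ℚ)) (b := (b : ℚ)) P := by
  rcases P with _ | ⟨x, y, h⟩ <;> rfl

variable {r s : ℕ} {a b : Fin r → ℤ}

theorem val_eq {F : Type} [Field F] [Algebra F ℂ] (Q : (j : Fin r) → Pts F (a j) (b j)) :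
    ((aeval (fun v : Fin r × Fin 2 => algebraMap F ℂ (coord (Q v.1) v.2))) :
      MvPolynomial (Fin r × Fin 2) ℤ →ₐ[ℤ] ℂ).toRingHom =
      (algebraMap F ℂ).comp (evf (a := a) (b := b) Q) := by
  apply MvPolynomial.ringHom_ext
  · intro n
    rw [← RingHom.comp_apply, ← RingHom.comp_apply]
    congr 1
    exact RingHom.ext_int _ _
  · rintro ⟨j, e⟩
    change aeval _ (X (j, e)) = _
    rw [aeval_X, RingHom.comp_apply]
    congr 1
    unfold evf
    rcases fin2 e with rfl | rfl
    · rw [evp_x]
      exact coord_eq (Q j) 0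
    · rw [evp_y]
      exact coord_eq (Q j) 1

theorem mem_fibre {F : Type} [Field F] [Algebra F ℂ]
    (X : Set (MvPolynomial (Fin s) (MvPolynomial (Fin r × Fin 2) ℤ)))
    (Q : (j : Fin r) → Pts F (a j) (b j)) (z : Fin s → ℂ) :
    z ∈ Fibre X Q ↔ ∀ G ∈ X, eval₂ ((algebraMap F ℂ).comp (evf (a := a) (b := b) Q)) z G = 0 := by
  unfold Fibre
  rw [Set.mem_ofPred_eq, val_eq]

theorem mem_fibreC (X : Set (MvPolynomial (Fin s) (MvPolynomial (Fin r × Fin 2) ℤ)))
    (Q : (j : Fin r) → Pts ℂ (a j) (b j)) (z : Fin s → ℂ) :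
    z ∈ Fibre X Q ↔ ∀ G ∈ X, eval₂ (evf (a := a) (b := b) Q) z G = 0 := by
  rw [mem_fibre]
  exact Iff.rfl

theorem fieldOf_eq (K : IntermediateField ℚ ℂ) (R : (j : Fin r) → Pts ℂ (a j) (b j)) :
    fieldOf K R = K.toSubfield ⊔ fld (a := a) (b := b) R := by
  refine le_antisymm ?_ (sup_le ?_ ?_)
  · refine Subfield.closure_le.2 ?_
    rintro x (hx | ⟨⟨j, e⟩, rfl⟩)
    · exact (le_sup_left : K.toSubfield ≤ K.toSubfield ⊔ fld (a := a) (b := b) R) hx
    · refine (le_sup_right : fld (a := a) (b := b) R ≤ K.toSubfield ⊔ fld (a := a) (b := b) R) ?_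
      rcases fin2 e with rfl | rfl
      · exact Subfield.subset_closure (Or.inl ⟨j, (coord_eq (R j) 0).symm⟩)
      · exact Subfield.subset_closure (Or.inr ⟨j, (coord_eq (R j) 1).symm⟩)
  · intro x hx
    exact Subfield.subset_closure (Or.inl hx)
  · unfold fld
    rw [Subfield.closure_le]
    rintro z (⟨j, rfl⟩ | ⟨j, rfl⟩)
    · exact Subfield.subset_closure (Or.inr ⟨(j, 0), coord_eq (R j) 0⟩)
    · exact Subfield.subset_closure (Or.inr ⟨(j, 1), coord_eq (R j) 1⟩)

theorem isRational_iff (S : (j : Fin r) → Pts ℂ (a j) (b j)) :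
    IsRational S ↔ ∀ j, IsRatP (a := (a j : ℂ)) (b := (b j : ℂ)) (S j) := by
  constructor
  · intro h j
    obtain ⟨q0, h0⟩ := h j 0
    obtain ⟨q1, h1⟩ := h j 1
    rw [coord_eq] at h0 h1
    exact ⟨(q0, q1), Prod.ext h0 h1⟩
  · intro h j e
    obtain ⟨q, hq⟩ := h j
    have h1 := coord_eq (a := a j) (b := b j) (S j) e
    rw [hq] at h1
    rcases fin2 e with rfl | rfl
    · exact ⟨q.1, h1⟩
    · exact ⟨q.2, h1⟩

theorem mem_ball (c Q : (j : Fin r) → Pts ℚ (a j) (b j)) (T : ℝ) : Q ∈ Ball c T ↔
    ∀ j, hx (a := (a j : ℚ)) (b := (b j : ℚ)) (Q j - c j) ≤ T ^ 2 :=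
  forall_congr' fun j => by rw [height_eq]

theorem mem_ball0 (Q : (j : Fin r) → Pts ℚ (a j) (b j)) (T : ℝ) :
    Q ∈ Ball (a := a) (b := b) 0 T ↔
    ∀ j, hx (a := (a j : ℚ)) (b := (b j : ℚ)) (Q j) ≤ T ^ 2 :=
  forall_congr' fun j => by rw [Pi.zero_apply, sub_zero, height_eq]

end

open Pool.Agent.J4H11.RC Pool.Agent.J4H11.SC Pool.Agent.J4H11.GN Pool.Agent.J4H11.GP
  Pool.Agent.J4H11.GQ in
theorem result (r : ℕ) (hr : 1 ≤ r) (a b : Fin r → ℤ)
    (hE : ∀ j, 4 * a j ^ 3 + 27 * b j ^ 2 ≠ 0)
    (hrk : ∀ j, 3 ≤ finrank ℤ (Pts ℚ (a j) (b j)))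
    -- the algebraic set `X`, generically finite over `A`
    (s : ℕ) (X : Set (MvPolynomial (Fin s) (MvPolynomial (Fin r × Fin 2) ℤ)))
    (hX : ∀ P : (j : Fin r) → Pts ℂ (a j) (b j), Generic P → (Fibre X P).Finite)
    -- the bound `d` for the degrees of the points
    (d : ℕ) (hd : 1 ≤ d) :
    List.TFAE [
      -- `X` is not dominated over any number field
      ∀ K : IntermediateField ℚ ℂ, FiniteDimensional ℚ K → ¬ Dominated a b X K d,
      -- density zero over every number field
      ∀ K : IntermediateField ℚ ℂ, FiniteDimensional ℚ K →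
        Filter.Tendsto (fun T : ℝ => ({Q | Q ∈ Ball (a := a) (b := b) 0 T ∧ ¬ AtInfinity Q ∧
          HasPoint X K d Q}.ncard : ℝ) / ((Ball (a := a) (b := b) 0 T).ncard : ℝ))
          Filter.atTop (nhds 0),
      -- the uniform bound over all the number fields of degree at most `D`
      ∀ D : ℕ, ∃ γ C : ℝ, 0 < γ ∧
        ∀ K : IntermediateField ℚ ℂ, FiniteDimensional ℚ K → finrank ℚ K ≤ D →
        ∀ (c : (j : Fin r) → Pts ℚ (a j) (b j)) (T : ℝ), 2 ≤ T →
        {Q | Q ∈ Ball c T ∧ (AtInfinity Q ∨ HasPoint X K d Q)}.Finite ∧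
        ({Q | Q ∈ Ball c T ∧ (AtInfinity Q ∨ HasPoint X K d Q)}.ncard : ℝ) ≤
          C * T ^ (∑ j, finrank ℤ (Pts ℚ (a j) (b j))) * Real.log T ^ (-γ) ∧
        ({Q | Q ∈ Ball c T ∧ (AtInfinity Q ∨ HasPoint X K d Q)}.ncard : ℝ) ≤
          C * Real.log T ^ (-γ) * ((Ball (a := a) (b := b) 0 T).ncard : ℝ)] := by
  have hD : ∀ j, Pool.Agent.H901R3.MS.Disc (a j : ℚ) (b j : ℚ) := by
    intro j h0
    apply hE j
    have h1 : (4 * (a j : ℚ) ^ 3 + 27 * (b j : ℚ) ^ 2) = ((4 * a j ^ 3 + 27 * b j ^ 2 : ℤ) : ℚ) := by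
      push_cast; ring
    rw [h1] at h0
    rcases mul_eq_zero.1 h0 with h2 | h2
    · norm_num at h2
    · exact_mod_cast h2
  have hxc : ∀ P : (j : Fin r) → Pts ℂ (a j) (b j), (fun j => coord (P j) 0) =
      fun j => (crd (a := (a j : ℂ)) (b := (b j : ℂ)) (P j)).1 := by
    intro P
    funext j
    exact coord_eq (P j) 0
  have hdeg : ∀ (F : Subfield ℂ) (z : Fin s → ℂ), DegreeLE F d z ↔ SD F z d :=
    fun F z => (SD_iff F z d).symm
  have hpt : ∀ (K : IntermediateField ℚ ℂ) (Q : (j : Fin r) → Pts ℚ (a j) (b j)),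
      HasPoint X K d Q ↔ ∃ z : Fin s → ℂ,
      (∀ G ∈ X, eval₂ ((algebraMap ℚ ℂ).comp (evf (a := a) (b := b) Q)) z G = 0) ∧
        SD K.toSubfield z d := by
    intro K Q
    unfold HasPoint
    refine exists_congr fun z => ?_
    rw [mem_fibre, hdeg]
  have hXf : ∀ P : (j : Fin r) → Pts ℂ (a j) (b j),
      AlgebraicIndependent ℚ (fun j => (crd (a := (a j : ℂ)) (b := (b j : ℂ)) (P j)).1) →
      {ζ : Fin s → ℂ | ∀ G ∈ X, eval₂ (evf (a := a) (b := b) P) ζ G = 0}.Finite := by
    intro P hP
    refine (hX P ?_).subset fun z hz => (mem_fibreC X P z).2 hz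
    unfold Generic
    rw [hxc P]
    exact hP
  obtain ⟨κ, hκ0, hκ⟩ := low_all (a := a) (b := b) hD
  have hb : ∀ T : ℝ, Ball (a := a) (b := b) 0 T =
      {P : (j : Fin r) → Pool.Agent.H901R3.MS.Pt (a j : ℚ) (b j : ℚ) |
        ∀ j, hx (P j) ≤ T ^ 2} := fun T => Set.ext fun Q => mem_ball0 Q T
  set ρ := ∑ j, finrank ℤ (Pts ℚ (a j) (b j)) with hρ
  have h13 : (∀ K : IntermediateField ℚ ℂ, FiniteDimensional ℚ K → ¬ Dominated a b X K d) →
      ∀ D : ℕ, ∃ γ C : ℝ, 0 < γ ∧
        ∀ K : IntermediateField ℚ ℂ, FiniteDimensional ℚ K → finrank ℚ K ≤ D →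
        ∀ (c : (j : Fin r) → Pts ℚ (a j) (b j)) (T : ℝ), 2 ≤ T →
        {Q | Q ∈ Ball c T ∧ (AtInfinity Q ∨ HasPoint X K d Q)}.Finite ∧
        ({Q | Q ∈ Ball c T ∧ (AtInfinity Q ∨ HasPoint X K d Q)}.ncard : ℝ) ≤
          C * T ^ ρ * Real.log T ^ (-γ) ∧
        ({Q | Q ∈ Ball c T ∧ (AtInfinity Q ∨ HasPoint X K d Q)}.ncard : ℝ) ≤
          C * Real.log T ^ (-γ) * ((Ball (a := a) (b := b) 0 T).ncard : ℝ) := by
    intro hdom D
    obtain ⟨γ, C, hγ, hC0, hC⟩ := uni_K2 hr a b hD hrk X hXf d hd (by
        intro K hK P hP n hn R S hRS hS ζ hζ hcon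
        refine hdom K hK ⟨P, ?_, n, hn, R, S, (isRational_iff S).2 hS, funext hRS, ζ,
          (mem_fibreC X P ζ).2 hζ, (hdeg _ _).2 ?_⟩
        · unfold Generic
          rw [hxc P]
          exact hP
        · exact (congrArg (fun F => SD F ζ d) (fieldOf_eq K R)).mpr hcon) D
    have hset : ∀ (K : IntermediateField ℚ ℂ)
        (c : (j : Fin r) → Pool.Agent.H901R3.MS.Pt (a j : ℚ) (b j : ℚ)) (T : ℝ),
        {Q | Q ∈ Ball (a := a) (b := b) c T ∧ (AtInfinity Q ∨ HasPoint X K d Q)} =
        {P : (j : Fin r) → Pool.Agent.H901R3.MS.Pt (a j : ℚ) (b j : ℚ) |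
          (∀ j, hx (P j - c j) ≤ T ^ 2) ∧ ((∀ j, P j ≠ 0) →
          ∃ z : Fin s → ℂ, (∀ G ∈ X, eval₂ ((algebraMap ℚ ℂ).comp (evf P)) z G = 0) ∧
            SD K.toSubfield z d)} := by
      intro K c T
      ext Q
      have h1 : (AtInfinity Q ∨ HasPoint X K d Q) ↔ ((∀ j, Q j ≠ 0) →
          ∃ z : Fin s → ℂ, (∀ G ∈ X,
            eval₂ ((algebraMap ℚ ℂ).comp (evf (a := a) (b := b) Q)) z G = 0) ∧
            SD K.toSubfield z d) := by
        rw [← hpt K Q]
        unfold AtInfinity
        constructor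
        · rintro (⟨j, hj⟩ | h0) h
          · exact absurd hj (h j)
          · exact h0
        · intro h
          by_cases h0 : ∃ j, Q j = 0
          · exact Or.inl h0
          · push Not at h0
            exact Or.inr (h h0)
      exact and_congr (mem_ball c Q T) h1
    refine ⟨γ, C + C / κ, hγ, fun K hK hKD c T hT => ?_⟩
    obtain ⟨h1', h2'⟩ := hC K hKD T hT c
    obtain ⟨-, h3⟩ := hκ T (by linarith)
    have h1 : {Q | Q ∈ Ball c T ∧ (AtInfinity Q ∨ HasPoint X K d Q)}.Finite :=
      (hset K c T).symm ▸ h1'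
    have h2 : ({Q | Q ∈ Ball c T ∧ (AtInfinity Q ∨ HasPoint X K d Q)}.ncard : ℝ) ≤
        C * T ^ ρ * Real.log T ^ (-γ) :=
      (congrArg (fun S => (S.ncard : ℝ)) (hset K c T)).le.trans h2'
    have hT0 : 0 < T := by linarith
    have hlog : 0 ≤ Real.log T ^ (-γ) :=
      Real.rpow_nonneg (Real.log_nonneg (by linarith)) _
    have hpos : 0 ≤ C / κ := div_nonneg hC0 hκ0.le
    refine ⟨h1, ?_, ?_⟩
    · refine h2.trans ?_
      apply mul_le_mul_of_nonneg_right _ hlog
      apply mul_le_mul_of_nonneg_right _ (by positivity)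
      linarith
    · rw [hb]
      refine h2.trans ?_
      calc C * T ^ ρ * Real.log T ^ (-γ)
          = C / κ * Real.log T ^ (-γ) * (κ * T ^ ρ) := by
            field_simp
        _ ≤ C / κ * Real.log T ^ (-γ) * _ :=
            mul_le_mul_of_nonneg_left h3 (mul_nonneg hpos hlog)
        _ ≤ _ := by
            apply mul_le_mul_of_nonneg_right _ (Nat.cast_nonneg _)
            apply mul_le_mul_of_nonneg_right _ hlog
            linarith
  have hB0 : ∀ T : ℝ, 2 ≤ T → (0 : ℝ) < ((Ball (a := a) (b := b) 0 T).ncard : ℝ) := by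
    intro T hT
    have h1 := (hκ T (by linarith)).2
    have h2 : 0 < κ * T ^ ρ := mul_pos hκ0 (pow_pos (by linarith) _)
    rw [hb]
    exact h2.trans_le h1
  tfae_have 1 → 3 := h13
  tfae_have 3 → 2 := by
    intro h K hK
    obtain ⟨γ, C, hγ, hC⟩ := h (finrank ℚ K)
    have hlim : Filter.Tendsto (fun T : ℝ => C * Real.log T ^ (-γ)) Filter.atTop (nhds (C * 0)) :=
      ((tendsto_rpow_neg_atTop hγ).comp Real.tendsto_log_atTop).const_mul C
    rw [mul_zero] at hlim
    refine tendsto_of_tendsto_of_tendsto_of_le_of_le' tendsto_const_nhds hlim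
      (Filter.Eventually.of_forall fun T => by positivity) ?_
    filter_upwards [Filter.eventually_ge_atTop (2 : ℝ)] with T hT
    rw [div_le_iff₀ (hB0 T hT)]
    obtain ⟨g1, -, g3⟩ := hC K hK le_rfl 0 T hT
    refine le_trans (Nat.cast_le.2 (Set.ncard_le_ncard ?_ g1)) g3
    rintro Q ⟨h1, h2, h3⟩
    exact ⟨h1, Or.inr h3⟩
  tfae_have 2 → 1 := by
    rintro h K hK ⟨P, hP, n, hn, R, S, hS, hRS, z, hz, hzR⟩
    have hP' : AlgebraicIndependent ℚ (fun j =>
        (crd (a := (a j : ℂ)) (b := (b j : ℂ)) (P j)).1) := by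
      rw [← hxc P]
      exact hP
    rw [hdeg, fieldOf_eq] at hzR
    obtain ⟨κ', hκ'0, T0, hκ'⟩ := (dich_K hr a b hD hrk P hP' X (hXf P hP') K d hd).2 ⟨n, hn, R, S,
      fun j => congrFun hRS j, (isRational_iff S).1 hS, z, (mem_fibreC X P z).1 hz, hzR⟩
    obtain ⟨C, hC0, hC⟩ := up_all (a := a) (b := b) hD
    have h1 : ∀ᶠ T : ℝ in Filter.atTop, κ' / (C + 1) ≤
        ({Q | Q ∈ Ball (a := a) (b := b) 0 T ∧ ¬ AtInfinity Q ∧
          HasPoint X K d Q}.ncard : ℝ) / ((Ball (a := a) (b := b) 0 T).ncard : ℝ) := by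
      filter_upwards [Filter.eventually_ge_atTop (max T0 2)] with T hT
      have hT0 : T0 ≤ T := (le_max_left _ _).trans hT
      have hT2 : 2 ≤ T := (le_max_right _ _).trans hT
      rw [le_div_iff₀ (hB0 T hT2)]
      have g1 := hκ' T hT0
      have g2 := hC T hT2
      have hset : {Q | Q ∈ Ball (a := a) (b := b) 0 T ∧ ¬ AtInfinity Q ∧ HasPoint X K d Q} =
          {Q : (j : Fin r) → Pool.Agent.H901R3.MS.Pt (a j : ℚ) (b j : ℚ) |
            (∀ j, hx (Q j) ≤ T ^ 2) ∧ ((∀ j, Q j ≠ 0) ∧
              ∃ z : Fin s → ℂ, (∀ G ∈ X, eval₂ ((algebraMap ℚ ℂ).comp (evf Q)) z G = 0) ∧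
                SD K.toSubfield z d)} := by
        ext Q
        have h3 : (¬ AtInfinity Q ∧ HasPoint X K d Q) ↔ ((∀ j, Q j ≠ 0) ∧
            ∃ z : Fin s → ℂ, (∀ G ∈ X, eval₂ ((algebraMap ℚ ℂ).comp (evf Q)) z G = 0) ∧
              SD K.toSubfield z d) := by
          rw [← hpt K Q]
          unfold AtInfinity
          rw [not_exists]
        exact and_congr (mem_ball0 Q T) h3
      rw [hset, hb]
      refine le_trans ?_ g1
      have hTρ : 0 ≤ T ^ ρ := by positivity
      have h5 : κ' / (C + 1) * (C * T ^ ρ) ≤ κ' * T ^ ρ := by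
        rw [div_mul_eq_mul_div, div_le_iff₀ (by positivity)]
        have : 0 ≤ κ' * T ^ ρ := mul_nonneg hκ'0.le hTρ
        nlinarith
      exact (mul_le_mul_of_nonneg_left g2 (by positivity)).trans h5
    have h2 : κ' / (C + 1) ≤ 0 := ge_of_tendsto (h K hK) h1
    have h3 : 0 < κ' / (C + 1) := by positivity
    linarith
  tfae_finish

end Pool.Agent.Results.MP_2ae8fe_ag.UniformNumberFields
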